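import Mathlib

set_option autoImplicit false

namespace Pool.Agent.N789.POT

open Matrix

/-- If a symmetric real matrix has a test vector with `yᵀMy > p yᵀy` then it has an eigenvalue `> p`. -/
theorem exists_eigenvalue_gt {m : Type*} [Fintype m] [DecidableEq m] (M : Matrix m m ℝ)
    (hM : M.IsHermitian) (p : ℝ) (y : m → ℝ) (hy : p * (y ⬝ᵥ y) < y ⬝ᵥ M *ᵥ y) :
    ∃ μ : ℝ, p < μ ∧ ∃ v : m → ℝ, v ≠ 0 ∧ M *ᵥ v = μ • v := by
  have hB : (p • (1 : Matrix m m ℝ) - M).IsHermitian := by
    refine Matrix.IsHermitian.sub ?_ hM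
    rw [Matrix.IsHermitian, Matrix.conjTranspose_smul, Matrix.conjTranspose_one, star_trivial]
  have hnot : ¬ (p • (1 : Matrix m m ℝ) - M).PosSemidef := by
    intro h
    have h2 := (Matrix.posSemidef_iff_dotProduct_mulVec.mp h).2 y
    rw [star_trivial, Matrix.sub_mulVec, Matrix.smul_mulVec, Matrix.one_mulVec,
      dotProduct_sub, dotProduct_smul, smul_eq_mul] at h2
    linarith
  rw [hB.posSemidef_iff_eigenvalues_nonneg] at hnot
  obtain ⟨j, hj⟩ : ∃ j, hB.eigenvalues j < 0 := by
    by_contra hcon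
    push Not at hcon
    exact hnot (fun j => hcon j)
  refine ⟨p - hB.eigenvalues j, by linarith, (hB.eigenvectorBasis j).ofLp, ?_, ?_⟩
  · intro h0
    have := hB.eigenvectorBasis.toBasis.ne_zero j
    apply this
    rw [OrthonormalBasis.coe_toBasis]
    ext i
    exact congrFun h0 i
  · have h3 := hB.mulVec_eigenvectorBasis j
    rw [Matrix.sub_mulVec, Matrix.smul_mulVec, Matrix.one_mulVec] at h3
    rw [sub_smul, ← h3]
    simp

end Pool.Agent.N789.POT
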