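import Pool.Agent.N789.POT.Num
import Pool.Agent.N789.POT.Spec

set_option autoImplicit false

namespace Pool.Agent.N789.POT

open Matrix Equiv

/-- `A` has a test vector whose Rayleigh quotient for the Schur power exceeds the permanent. -/
def Viol {ι : Type*} [Fintype ι] [DecidableEq ι] (A : Matrix ι ι ℝ) : Prop :=
  ∃ y : Perm ι → ℝ, A.permanent * ∑ σ, y σ * y σ <
    ∑ σ : Perm ι, ∑ τ : Perm ι, y σ * y τ * ∏ i, A (σ i) (τ i)

theorem permanent_blocks {ι κ : Type*} [Fintype ι] [DecidableEq ι] [Fintype κ] [DecidableEq κ]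
    (A : Matrix ι ι ℝ) :
    (fromBlocks A 0 0 (1 : Matrix κ κ ℝ)).permanent = A.permanent := by
  unfold Matrix.permanent
  symm
  refine Fintype.sum_of_injective (fun s : Perm ι => Equiv.sumCongr s (1 : Perm κ)) ?_ _ _ ?_ ?_
  · intro s t h
    ext i
    have := Equiv.congr_fun h (Sum.inl i)
    simpa using this
  · intro σ hσ
    by_contra hne
    apply hσ
    have hfix : ∀ k, σ (Sum.inr k) = Sum.inr k := by
      intro k
      by_contra hk
      apply hne
      apply Finset.prod_eq_zero (Finset.mem_univ (Sum.inr k))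
      rcases hz : σ (Sum.inr k) with i | j
      · simp
      · rw [hz] at hk
        have : j ≠ k := fun h => hk (by rw [h])
        simp [this]
    have hmaps : Set.MapsTo σ (Set.range Sum.inl) (Set.range Sum.inl) := by
      rintro _ ⟨i, rfl⟩
      rcases hz : σ (Sum.inl i) with j | k
      · exact ⟨j, rfl⟩
      · exfalso
        have := σ.injective (hz.trans (hfix k).symm)
        simp at this
    obtain ⟨⟨s, t⟩, hst⟩ := Perm.mem_sumCongrHom_range_of_perm_mapsTo_inl hmaps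
    refine ⟨s, ?_⟩
    rw [← hst]
    have ht : t = 1 := by
      ext k
      have h1 := hfix k
      rw [← hst] at h1
      simpa using h1
    rw [ht]
    ext z
    rcases z with i | k <;> simp
  · intro s
    rw [Fintype.prod_sum_type]
    simp

theorem Viol.blocks {ι κ : Type*} [Fintype ι] [DecidableEq ι] [Fintype κ] [DecidableEq κ]
    {A : Matrix ι ι ℝ} (h : Viol A) : Viol (fromBlocks A 0 0 (1 : Matrix κ κ ℝ)) := by
  obtain ⟨y, hy⟩ := h
  classical
  have hinj : Function.Injective (fun s : Perm ι => Equiv.sumCongr s (1 : Perm κ)) := by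
    intro s t h
    ext i
    have := Equiv.congr_fun h (Sum.inl i)
    simpa using this
  let y' : Perm (ι ⊕ κ) → ℝ := fun σ => ∑ s : Perm ι, if Equiv.sumCongr s 1 = σ then y s else 0
  have hsum : ∀ f : Perm (ι ⊕ κ) → ℝ, ∑ σ, y' σ * f σ = ∑ s, y s * f (Equiv.sumCongr s 1) := by
    intro f
    simp only [y', Finset.sum_mul]
    rw [Finset.sum_comm]
    refine Finset.sum_congr rfl fun s _ => ?_
    simp only [ite_mul, zero_mul]
    rw [Finset.sum_ite_eq]
    simp
  have hval : ∀ s, y' (Equiv.sumCongr s 1) = y s := by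
    intro s
    simp only [y']
    rw [Finset.sum_eq_single s]
    · simp
    · intro t _ hts
      rw [if_neg]
      intro h
      exact hts (hinj h)
    · intro h
      exact absurd (Finset.mem_univ s) h
  refine ⟨y', ?_⟩
  rw [permanent_blocks, hsum]
  have e1 : ∑ s, y s * y' (Equiv.sumCongr s 1) = ∑ s, y s * y s :=
    Finset.sum_congr rfl fun s _ => by rw [hval]
  rw [e1]
  have e2 : ∑ σ : Perm (ι ⊕ κ), ∑ τ : Perm (ι ⊕ κ), y' σ * y' τ *
      ∏ i, (fromBlocks A 0 0 (1 : Matrix κ κ ℝ)) (σ i) (τ i) =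
      ∑ s : Perm ι, ∑ t : Perm ι, y s * y t * ∏ i, A (s i) (t i) := by
    have : ∀ σ : Perm (ι ⊕ κ), ∑ τ : Perm (ι ⊕ κ), y' σ * y' τ *
      ∏ i, (fromBlocks A 0 0 (1 : Matrix κ κ ℝ)) (σ i) (τ i) = y' σ *
      ∑ t, y t * ∏ i, (fromBlocks A 0 0 (1 : Matrix κ κ ℝ)) (σ i) ((Equiv.sumCongr t 1) i) := by
      intro σ
      rw [← hsum (fun τ => ∏ i, (fromBlocks A 0 0 (1 : Matrix κ κ ℝ)) (σ i) (τ i)), Finset.mul_sum]
      exact Finset.sum_congr rfl fun τ _ => by ring
    rw [Finset.sum_congr rfl fun σ _ => this σ, hsum]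
    refine Finset.sum_congr rfl fun s _ => ?_
    rw [Finset.mul_sum]
    refine Finset.sum_congr rfl fun t _ => ?_
    rw [Fintype.prod_sum_type]
    simp
    ring
  rw [e2]
  exact hy

theorem permanent_submatrix_equiv {ι κ : Type*} [Fintype ι] [DecidableEq ι] [Fintype κ]
    [DecidableEq κ] (A : Matrix ι ι ℝ) (e : κ ≃ ι) :
    (A.submatrix e e).permanent = A.permanent := by
  unfold Matrix.permanent
  rw [← Equiv.sum_comp (e.permCongr)]
  refine Finset.sum_congr rfl fun σ _ => ?_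
  rw [← Equiv.prod_comp e]
  simp [Equiv.permCongr_apply]

theorem Viol.reindex {ι κ : Type*} [Fintype ι] [DecidableEq ι] [Fintype κ] [DecidableEq κ]
    {A : Matrix ι ι ℝ} (h : Viol A) (e : κ ≃ ι) : Viol (A.submatrix e e) := by
  obtain ⟨y, hy⟩ := h
  refine ⟨fun σ => y (e.permCongr σ), ?_⟩
  rw [permanent_submatrix_equiv, Equiv.sum_comp e.permCongr (fun σ => y σ * y σ)]
  refine lt_of_lt_of_eq hy ?_
  symm
  rw [← Equiv.sum_comp e.permCongr]
  refine Finset.sum_congr rfl fun σ _ => ?_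
  rw [← Equiv.sum_comp e.permCongr]
  refine Finset.sum_congr rfl fun τ _ => ?_
  rw [← Equiv.prod_comp e]
  simp [Equiv.permCongr_apply]

/-- The configuration of eight vectors (integer coordinates). -/
def VZ : Fin 8 → Fin 3 → ℤ :=
  ![![5, 0, 2], ![5, 5, 3], ![0, 5, 2], ![-5, 5, 3], ![-5, 0, 2], ![-5, -5, 3], ![0, -5, 2],
    ![5, -5, 3]]

/-- The configuration of eight vectors. -/
def V : Matrix (Fin 8) (Fin 3) ℝ := Matrix.of fun i k => ((VZ i k : ℤ) : ℝ)

/-- The 8 by 8 matrix. -/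
noncomputable def A8 : Matrix (Fin 8) (Fin 8) ℝ := (10 : ℝ) • (V * Vᴴ) + 1

theorem AZ_eq : ∀ i j : Fin 8, AZ i j =
    10 * (VZ i 0 * VZ j 0 + VZ i 1 * VZ j 1 + VZ i 2 * VZ j 2) + if i = j then 1 else 0 := by
  decide +kernel

theorem A8_eq (i j : Fin 8) : A8 i j = ((AZ i j : ℤ) : ℝ) := by
  rw [AZ_eq, A8, Matrix.add_apply, Matrix.smul_apply, Matrix.mul_apply, Fin.sum_univ_three,
    Matrix.one_apply]
  simp only [V, Matrix.conjTranspose_apply, Matrix.of_apply, star_trivial, smul_eq_mul]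
  push_cast
  rfl

theorem A8_posDef : A8.PosDef := by
  unfold A8
  refine Matrix.PosDef.posSemidef_add ?_ Matrix.PosDef.one
  exact (Matrix.posSemidef_self_mul_conjTranspose V).smul (by norm_num)

theorem A8_perm : A8.permanent = ((PZ : ℤ) : ℝ) := by
  have h := perm_laplace (R := ℤ) AZ
  have h2 : ∑ k, p4 (fun a b => AZ (E k a) (E 0 b)) * p4 (fun a b => AZ (F k a) (F 0 b)) = PZ := by
    rw [Fin.sum_univ_def, PZ]
    refine congrArg List.sum (List.map_congr_left fun k _ => ?_)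
    rw [p4_eq, p4_eq]
  rw [h2] at h
  rw [← h, Matrix.permanent]
  push_cast
  exact Finset.sum_congr rfl fun σ _ => Finset.prod_congr rfl fun i _ => A8_eq _ _

theorem QZ_eq : ∑ k, ∑ l, xs k * xs l *
    (p4 (fun a b => AZ (E k a) (E l b)) * p4 (fun a b => AZ (F k a) (F l b))) = QZ := by
  rw [Fin.sum_univ_def, QZ]
  refine congrArg List.sum (List.map_congr_left fun k _ => ?_)
  by_cases hk : xs k = 0
  · rw [if_pos hk]
    refine Finset.sum_eq_zero fun l _ => ?_
    rw [hk, zero_mul, zero_mul]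
  · rw [if_neg hk, Fin.sum_univ_def]
    refine congrArg List.sum (List.map_congr_left fun l _ => ?_)
    by_cases hl : xs l = 0
    · rw [if_pos hl, hl, mul_zero, zero_mul]
    · rw [if_neg hl, p4_eq, p4_eq]

theorem xs_sq : ∑ k, xs k * xs k = 262 := by
  decide +kernel

theorem A8_viol : Viol A8 := by
  refine ⟨fun σ => ((xs (PhiE.symm σ).1 : ℤ) : ℝ), ?_⟩
  have h1 := norm_sq (R := ℤ) xs
  rw [xs_sq] at h1
  have h2 := quad (R := ℤ) AZ xs
  rw [QZ_eq] at h2
  have h3 : ∑ σ : Perm (Fin 8), ((xs (PhiE.symm σ).1 : ℤ) : ℝ) * ((xs (PhiE.symm σ).1 : ℤ) : ℝ) =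
      ((576 * 262 : ℤ) : ℝ) := by
    rw [← h1]; push_cast; rfl
  have h4 : ∑ σ : Perm (Fin 8), ∑ τ : Perm (Fin 8),
      ((xs (PhiE.symm σ).1 : ℤ) : ℝ) * ((xs (PhiE.symm τ).1 : ℤ) : ℝ) * ∏ i, A8 (σ i) (τ i) =
      ((576 * QZ : ℤ) : ℝ) := by
    rw [← h2]; push_cast
    simp only [A8_eq]
  rw [h3, h4, A8_perm]
  have h5 := QZ_gt
  have h6 : PZ * (576 * 262) < 576 * QZ := by linarith
  exact_mod_cast h6

theorem exists_viol (n : ℕ) (hn : 8 ≤ n) : ∃ A : Matrix (Fin n) (Fin n) ℝ, A.PosDef ∧ Viol A := by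
  obtain ⟨m, rfl⟩ := Nat.exists_eq_add_of_le hn
  refine ⟨(fromBlocks A8 0 0 (1 : Matrix (Fin m) (Fin m) ℝ)).submatrix finSumFinEquiv.symm
    finSumFinEquiv.symm, ?_, (A8_viol.blocks).reindex _⟩
  refine Matrix.PosDef.submatrix ?_ (finSumFinEquiv.symm.injective)
  have h : fromBlocks A8 0 0 (1 : Matrix (Fin m) (Fin m) ℝ) =
      (10 : ℝ) • ((fromRows V 0) * (fromRows V (0 : Matrix (Fin m) (Fin 3) ℝ))ᴴ) + 1 := by
    rw [conjTranspose_fromRows_eq_fromCols_conjTranspose, fromRows_mul_fromCols,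
      ← fromBlocks_one, fromBlocks_smul, fromBlocks_add]
    simp [A8]
  rw [h]
  refine Matrix.PosDef.posSemidef_add ?_ Matrix.PosDef.one
  exact (Matrix.posSemidef_self_mul_conjTranspose _).smul (by norm_num)

end Pool.Agent.N789.POT
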