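import Mathlib

set_option autoImplicit false

namespace Pool.Agent.N789.POT

open Matrix Equiv

/-- base 8 codes of the 70 four-element subsets of `Fin 8` (increasing order). -/
def cE : List ℕ := [1672, 2184, 2696, 3208, 3720, 2248, 2760, 3272, 3784, 2824, 3336, 3848, 3400, 3912, 3976, 2256, 2768, 3280, 3792, 2832, 3344, 3856, 3408, 3920, 3984, 2840, 3352, 3864, 3416, 3928, 3992, 3424, 3936, 4000, 4008, 2257, 2769, 3281, 3793, 2833, 3345, 3857, 3409, 3921, 3985, 2841, 3353, 3865, 3417, 3929, 3993, 3425, 3937, 4001, 4009, 2842, 3354, 3866, 3418, 3930, 3994, 3426, 3938, 4002, 4010, 3427, 3939, 4003, 4011, 4012]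

/-- base 8 codes of the complements. -/
def cF : List ℕ := [4012, 4011, 4003, 3939, 3427, 4010, 4002, 3938, 3426, 3994, 3930, 3418, 3866, 3354, 2842, 4009, 4001, 3937, 3425, 3993, 3929, 3417, 3865, 3353, 2841, 3985, 3921, 3409, 3857, 3345, 2833, 3793, 3281, 2769, 2257, 4008, 4000, 3936, 3424, 3992, 3928, 3416, 3864, 3352, 2840, 3984, 3920, 3408, 3856, 3344, 2832, 3792, 3280, 2768, 2256, 3976, 3912, 3400, 3848, 3336, 2824, 3784, 3272, 2760, 2248, 3720, 3208, 2696, 2184, 1672]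

/-- `a`-th element of the `k`-th 4-subset. -/
def E (k : Fin 70) (a : Fin 4) : Fin 8 := ⟨(cE.getD k.val 0 / 8 ^ a.val) % 8, Nat.mod_lt _ (by norm_num)⟩

/-- `a`-th element of the complement of the `k`-th 4-subset. -/
def F (k : Fin 70) (a : Fin 4) : Fin 8 := ⟨(cF.getD k.val 0 / 8 ^ a.val) % 8, Nat.mod_lt _ (by norm_num)⟩

theorem EF_inj : ∀ k : Fin 70, ∀ i j : Fin 4 ⊕ Fin 4,
    Sum.elim (E k) (F k) i = Sum.elim (E k) (F k) j → i = j := by
  decide +kernel

theorem EF_bij (k : Fin 70) : Function.Bijective (Sum.elim (E k) (F k)) := by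
  rw [Fintype.bijective_iff_injective_and_card]
  exact ⟨fun i j h => EF_inj k i j h, by simp⟩

/-- the bijection `Fin 4 ⊕ Fin 4 ≃ Fin 8` listing the `k`-th 4-subset and its complement. -/
noncomputable def e (k : Fin 70) : Fin 4 ⊕ Fin 4 ≃ Fin 8 := Equiv.ofBijective _ (EF_bij k)

theorem e_inl (k : Fin 70) (a : Fin 4) : e k (Sum.inl a) = E k a := rfl
theorem e_inr (k : Fin 70) (a : Fin 4) : e k (Sum.inr a) = F k a := rfl

theorem E_inj (k : Fin 70) : Function.Injective (E k) := by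
  intro a b h
  have := EF_inj k (Sum.inl a) (Sum.inl b) (by simpa using h)
  simpa using this

theorem F_inj (k : Fin 70) : Function.Injective (F k) := by
  intro a b h
  have := EF_inj k (Sum.inr a) (Sum.inr b) (by simpa using h)
  simpa using this

def code (k : Fin 70) : ℕ := 2 ^ (E k 0).val + 2 ^ (E k 1).val + 2 ^ (E k 2).val + 2 ^ (E k 3).val

theorem code_inj : ∀ k l : Fin 70, code k = code l → k = l := by
  decide +kernel

theorem code_eq (k : Fin 70) (s : Perm (Fin 4)) : ∑ a, 2 ^ (E k (s a)).val = code k := by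
  rw [Equiv.sum_comp s (fun a => 2 ^ (E k a).val), Fin.sum_univ_four]
  rfl

/-- the permutation `e_k ∘ (s ⊔ t) ∘ e_0⁻¹`. -/
noncomputable def Phi (x : Fin 70 × (Perm (Fin 4) × Perm (Fin 4))) : Perm (Fin 8) :=
  (e 0).symm.trans ((Equiv.sumCongr x.2.1 x.2.2).trans (e x.1))

theorem Phi_apply (x : Fin 70 × (Perm (Fin 4) × Perm (Fin 4))) (z : Fin 4 ⊕ Fin 4) :
    Phi x (e 0 z) = e x.1 (Equiv.sumCongr x.2.1 x.2.2 z) := by
  simp [Phi]

theorem Phi_inl (x : Fin 70 × (Perm (Fin 4) × Perm (Fin 4))) (a : Fin 4) :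
    Phi x (e 0 (Sum.inl a)) = E x.1 (x.2.1 a) := by
  rw [Phi_apply]; rfl

theorem Phi_inr (x : Fin 70 × (Perm (Fin 4) × Perm (Fin 4))) (a : Fin 4) :
    Phi x (e 0 (Sum.inr a)) = F x.1 (x.2.2 a) := by
  rw [Phi_apply]; rfl

theorem Phi_bij : Function.Bijective Phi := by
  rw [Fintype.bijective_iff_injective_and_card]
  constructor
  · rintro ⟨k, s, t⟩ ⟨l, s', t'⟩ h
    have h1 : ∀ a, E k (s a) = E l (s' a) := fun a => by
      have := Phi_inl (k, s, t) a
      rw [h, Phi_inl] at this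
      exact this.symm
    have h2 : ∀ a, F k (t a) = F l (t' a) := fun a => by
      have := Phi_inr (k, s, t) a
      rw [h, Phi_inr] at this
      exact this.symm
    have hk : k = l := by
      apply code_inj
      rw [← code_eq k s, ← code_eq l s']
      exact Finset.sum_congr rfl fun a _ => by rw [h1 a]
    subst hk
    have hs : s = s' := Equiv.ext fun a => E_inj k (h1 a)
    have ht : t = t' := Equiv.ext fun a => F_inj k (h2 a)
    rw [hs, ht]
  · simp [Fintype.card_perm, Nat.factorial]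

/-- the bijection. -/
noncomputable def PhiE : Fin 70 × (Perm (Fin 4) × Perm (Fin 4)) ≃ Perm (Fin 8) :=
  Equiv.ofBijective Phi Phi_bij

theorem PhiE_apply (x : Fin 70 × (Perm (Fin 4) × Perm (Fin 4))) : PhiE x = Phi x := rfl

theorem prod_split {R : Type*} [CommRing R] (f : Fin 8 → R) :
    ∏ i, f i = (∏ a, f (e 0 (Sum.inl a))) * ∏ a, f (e 0 (Sum.inr a)) := by
  rw [← Equiv.prod_comp (e 0), Fintype.prod_sum_type]

/-- the 4 by 4 permanent. -/
def p4 {R : Type*} [CommRing R] (M : Fin 4 → Fin 4 → R) : R := ∑ s : Perm (Fin 4), ∏ a, M (s a) a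

theorem double_p4 {R : Type*} [CommRing R] (M : Fin 4 → Fin 4 → R) :
    ∑ s : Perm (Fin 4), ∑ s' : Perm (Fin 4), ∏ a, M (s a) (s' a) = 24 * p4 M := by
  rw [Finset.sum_comm]
  have h : ∀ s' : Perm (Fin 4), ∑ s : Perm (Fin 4), ∏ a, M (s a) (s' a) = p4 M := by
    intro s'
    unfold p4
    rw [← Equiv.sum_comp (Equiv.mulRight s')]
    refine Finset.sum_congr rfl fun s _ => ?_
    rw [← Equiv.prod_comp s' (fun a => M (s a) a)]
    rfl
  rw [Finset.sum_congr rfl fun s' _ => h s', Finset.sum_const, Finset.card_univ,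
    Fintype.card_perm, Fintype.card_fin, nsmul_eq_mul]
  norm_num [Nat.factorial]

/-- the quadratic form of the Schur power at vectors depending on the 4-subset only. -/
theorem quad {R : Type*} [CommRing R] (A : Fin 8 → Fin 8 → R) (x : Fin 70 → R) :
    ∑ σ : Perm (Fin 8), ∑ τ : Perm (Fin 8),
      x (PhiE.symm σ).1 * x (PhiE.symm τ).1 * ∏ i, A (σ i) (τ i) =
    576 * ∑ k, ∑ l, x k * x l * (p4 (fun a b => A (E k a) (E l b)) * p4 (fun a b => A (F k a) (F l b))) := by
  rw [← Equiv.sum_comp PhiE]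
  have h1 : ∀ u : Fin 70 × (Perm (Fin 4) × Perm (Fin 4)),
      ∑ τ : Perm (Fin 8), x (PhiE.symm (PhiE u)).1 * x (PhiE.symm τ).1 * ∏ i, A ((PhiE u) i) (τ i) =
      ∑ w : Fin 70 × (Perm (Fin 4) × Perm (Fin 4)), x u.1 * x w.1 *
        ((∏ a, A (E u.1 (u.2.1 a)) (E w.1 (w.2.1 a))) * ∏ a, A (F u.1 (u.2.2 a)) (F w.1 (w.2.2 a))) := by
    intro u
    rw [← Equiv.sum_comp PhiE]
    refine Finset.sum_congr rfl fun w _ => ?_
    rw [Equiv.symm_apply_apply, Equiv.symm_apply_apply, prod_split]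
    simp only [PhiE_apply, Phi_inl, Phi_inr]
  rw [Finset.sum_congr rfl fun u _ => h1 u]
  simp only [Fintype.sum_prod_type]
  -- ∑ k, ∑ s, ∑ t, ∑ l, ∑ s', ∑ t', ...
  rw [Finset.mul_sum]
  refine Finset.sum_congr rfl fun k _ => ?_
  have h2 : ∀ (s t : Perm (Fin 4)),
      ∑ l : Fin 70, ∑ s' : Perm (Fin 4), ∑ t' : Perm (Fin 4), x k * x l *
        ((∏ a, A (E k (s a)) (E l (s' a))) * ∏ a, A (F k (t a)) (F l (t' a))) =
      ∑ l : Fin 70, x k * x l * ((∑ s' : Perm (Fin 4), ∏ a, A (E k (s a)) (E l (s' a))) *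
        ∑ t' : Perm (Fin 4), ∏ a, A (F k (t a)) (F l (t' a))) := by
    intro s t
    refine Finset.sum_congr rfl fun l _ => ?_
    rw [Finset.sum_mul_sum, Finset.mul_sum]
    refine Finset.sum_congr rfl fun s' _ => ?_
    rw [Finset.mul_sum]
  rw [Finset.sum_congr rfl fun s _ => Finset.sum_congr rfl fun t _ => h2 s t]
  rw [Finset.sum_congr rfl fun s _ => Finset.sum_comm]
  rw [Finset.sum_comm, Finset.mul_sum]
  refine Finset.sum_congr rfl fun l _ => ?_
  have h3 : ∀ s : Perm (Fin 4), ∑ t : Perm (Fin 4), x k * x l *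
      ((∑ s' : Perm (Fin 4), ∏ a, A (E k (s a)) (E l (s' a))) *
        ∑ t' : Perm (Fin 4), ∏ a, A (F k (t a)) (F l (t' a))) =
      x k * x l * (∑ s' : Perm (Fin 4), ∏ a, A (E k (s a)) (E l (s' a))) *
        (24 * p4 (fun a b => A (F k a) (F l b))) := by
    intro s
    rw [← double_p4, Finset.mul_sum]
    exact Finset.sum_congr rfl fun t _ => by ring
  rw [Finset.sum_congr rfl fun s _ => h3 s, ← Finset.sum_mul, ← Finset.mul_sum,
    double_p4 (fun a b => A (E k a) (E l b))]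
  ring

/-- the norm of such a vector. -/
theorem norm_sq {R : Type*} [CommRing R] (x : Fin 70 → R) :
    ∑ σ : Perm (Fin 8), x (PhiE.symm σ).1 * x (PhiE.symm σ).1 = 576 * ∑ k, x k * x k := by
  have hc : Fintype.card (Perm (Fin 4) × Perm (Fin 4)) = 576 := by
    simp [Fintype.card_perm, Nat.factorial]
  rw [← Equiv.sum_comp PhiE]
  simp only [Equiv.symm_apply_apply, Fintype.sum_prod_type, Finset.sum_const, Finset.card_univ,
    hc, nsmul_eq_mul, Finset.mul_sum]
  refine Finset.sum_congr rfl fun k _ => ?_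
  push_cast
  ring

/-- the permanent by Laplace expansion. -/
theorem perm_laplace {R : Type*} [CommRing R] (A : Fin 8 → Fin 8 → R) :
    ∑ σ : Perm (Fin 8), ∏ i, A (σ i) i =
    ∑ k, p4 (fun a b => A (E k a) (E 0 b)) * p4 (fun a b => A (F k a) (F 0 b)) := by
  rw [← Equiv.sum_comp PhiE]
  simp only [Fintype.sum_prod_type]
  refine Finset.sum_congr rfl fun k _ => ?_
  unfold p4
  rw [Finset.sum_mul_sum]
  refine Finset.sum_congr rfl fun s _ => Finset.sum_congr rfl fun t _ => ?_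
  rw [prod_split]
  simp only [PhiE_apply, Phi_inl, Phi_inr]
  simp only [e_inl, e_inr]

end Pool.Agent.N789.POT

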