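import Pool.Agent.N789.POT.Comb

set_option autoImplicit false

namespace Pool.Agent.N789.POT

open Matrix Equiv

/-- recursive expansion of the permanent along the first column. -/
def permRec : (n : ℕ) → (Fin n → Fin n → ℤ) → ℤ
  | 0, _ => 1
  | n + 1, M => ∑ i : Fin (n + 1), M i 0 * permRec n (fun a b => M (swap 0 i a.succ) b.succ)

theorem sum_eq_permRec : ∀ (n : ℕ) (M : Fin n → Fin n → ℤ),
    ∑ s : Perm (Fin n), ∏ a, M (s a) a = permRec n M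
  | 0, M => by simp [permRec]
  | n + 1, M => by
    rw [permRec, ← Equiv.sum_comp Equiv.Perm.decomposeFin.symm, Fintype.sum_prod_type]
    refine Finset.sum_congr rfl fun i _ => ?_
    rw [← sum_eq_permRec n, Finset.mul_sum]
    refine Finset.sum_congr rfl fun s _ => ?_
    rw [Fin.prod_univ_succ]
    simp only [Equiv.Perm.decomposeFin_symm_apply_zero, Equiv.Perm.decomposeFin_symm_apply_succ]

/-- explicit 4 by 4 permanent. -/
def per4 (M : Fin 4 → Fin 4 → ℤ) : ℤ :=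
  M 0 0 * (M 1 1 * (M 2 2 * M 3 3 + M 2 3 * M 3 2) + M 1 2 * (M 2 1 * M 3 3 + M 2 3 * M 3 1)
    + M 1 3 * (M 2 1 * M 3 2 + M 2 2 * M 3 1)) +
  M 0 1 * (M 1 0 * (M 2 2 * M 3 3 + M 2 3 * M 3 2) + M 1 2 * (M 2 0 * M 3 3 + M 2 3 * M 3 0)
    + M 1 3 * (M 2 0 * M 3 2 + M 2 2 * M 3 0)) +
  M 0 2 * (M 1 0 * (M 2 1 * M 3 3 + M 2 3 * M 3 1) + M 1 1 * (M 2 0 * M 3 3 + M 2 3 * M 3 0)
    + M 1 3 * (M 2 0 * M 3 1 + M 2 1 * M 3 0)) +
  M 0 3 * (M 1 0 * (M 2 1 * M 3 2 + M 2 2 * M 3 1) + M 1 1 * (M 2 0 * M 3 2 + M 2 2 * M 3 0)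
    + M 1 2 * (M 2 0 * M 3 1 + M 2 1 * M 3 0))

theorem permRec2 (M : Fin 2 → Fin 2 → ℤ) : permRec 2 M = M 0 0 * M 1 1 + M 1 0 * M 0 1 := by
  simp [permRec, Fin.sum_univ_succ]

theorem permRec3 (M : Fin 3 → Fin 3 → ℤ) : permRec 3 M =
    M 0 0 * (M 1 1 * M 2 2 + M 2 1 * M 1 2) + M 1 0 * (M 0 1 * M 2 2 + M 2 1 * M 0 2) +
    M 2 0 * (M 1 1 * M 0 2 + M 0 1 * M 1 2) := by
  rw [permRec, Fin.sum_univ_three]
  simp only [permRec2]
  have h1 : ∀ a : Fin 2, swap (0 : Fin 3) 0 a.succ = a.succ := by decide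
  have h2 : swap (0 : Fin 3) 1 (Fin.succ (0 : Fin 2)) = 0 := by decide
  have h3 : swap (0 : Fin 3) 1 (Fin.succ (1 : Fin 2)) = 2 := by decide
  have h4 : swap (0 : Fin 3) 2 (Fin.succ (0 : Fin 2)) = 1 := by decide
  have h5 : swap (0 : Fin 3) 2 (Fin.succ (1 : Fin 2)) = 0 := by decide
  rw [h1, h1, h2, h3, h4, h5]
  have e1 : Fin.succ (0 : Fin 2) = 1 := rfl
  have e2 : Fin.succ (1 : Fin 2) = 2 := rfl
  rw [e1, e2]

theorem p4_eq (M : Fin 4 → Fin 4 → ℤ) : p4 M = per4 M := by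
  unfold p4
  rw [sum_eq_permRec, permRec, Fin.sum_univ_four]
  simp only [permRec3]
  have h1 : ∀ a : Fin 3, swap (0 : Fin 4) 0 a.succ = a.succ := by decide
  have h2 : swap (0 : Fin 4) 1 (Fin.succ (0 : Fin 3)) = 0 := by decide
  have h3 : swap (0 : Fin 4) 1 (Fin.succ (1 : Fin 3)) = 2 := by decide
  have h4 : swap (0 : Fin 4) 1 (Fin.succ (2 : Fin 3)) = 3 := by decide
  have h5 : swap (0 : Fin 4) 2 (Fin.succ (0 : Fin 3)) = 1 := by decide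
  have h6 : swap (0 : Fin 4) 2 (Fin.succ (1 : Fin 3)) = 0 := by decide
  have h7 : swap (0 : Fin 4) 2 (Fin.succ (2 : Fin 3)) = 3 := by decide
  have h8 : swap (0 : Fin 4) 3 (Fin.succ (0 : Fin 3)) = 1 := by decide
  have h9 : swap (0 : Fin 4) 3 (Fin.succ (1 : Fin 3)) = 2 := by decide
  have h10 : swap (0 : Fin 4) 3 (Fin.succ (2 : Fin 3)) = 0 := by decide
  rw [h1, h1, h1, h2, h3, h4, h5, h6, h7, h8, h9, h10]
  have e1 : Fin.succ (0 : Fin 3) = 1 := rfl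
  have e2 : Fin.succ (1 : Fin 3) = 2 := rfl
  have e3 : Fin.succ (2 : Fin 3) = 3 := rfl
  rw [e1, e2, e3]
  unfold per4
  ring

/-- the vector (constant on the orbits of the dihedral group). -/
def xs (k : Fin 70) : ℤ :=
  ([1, 0, -3, 0, 1, -3, 0, 1, 0, 5, 0, -3, -3, 0, 1, 0, 1, 0, -3, 0, -1, 0, 0, 1, 0, -3, 0, 5, 1, 0,
    -3, 0, -3, 0, 1, 1, 0, -3, 0, -3, 0, 1, 5, 0, -3, 0, 1, 0, 0, -1, 0, -3, 0, 1, 0, 1, 0, -3, -3,
    0, 5, 0, 1, 0, -3, 1, 0, -3, 0, 1] : List ℤ).getD k.val 0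

/-- the integer matrix `10 V Vᵀ + 1`. -/
def AZ (i j : Fin 8) : ℤ :=
  ([291, 310, 40, -190, -210, -190, 40, 310, 591, 310, 90, -190, -410, -190, 90, 310] : List ℤ).getD
    ((i.val % 2) * 8 + (i.val + 8 - j.val) % 8) 0

def PZ : ℤ := ((List.finRange 70).map fun k =>
  per4 (fun a b => AZ (E k a) (E 0 b)) * per4 (fun a b => AZ (F k a) (F 0 b))).sum

def QZ : ℤ := ((List.finRange 70).map fun k => if xs k = 0 then 0 else
  ((List.finRange 70).map fun l => if xs l = 0 then 0 else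
    xs k * xs l * (per4 (fun a b => AZ (E k a) (E l b)) * per4 (fun a b => AZ (F k a) (F l b)))).sum).sum

theorem PZ_eq : PZ = 82357692149216938079121 := by
  decide +kernel

theorem QZ_gt : 262 * PZ < QZ := by
  rw [PZ_eq]
  decide +kernel

end Pool.Agent.N789.POT
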